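import Pool.Agent.W619.Y.Stm
import Pool.Agent.W619.PQ.Fix

/-! PG-FORM (helper412): the pluricanonical forms on the quotient. -/

set_option autoImplicit false
set_option linter.overlappingInstances false
set_option linter.unusedSectionVars false

universe u v

open FF IntermediateField Pool.Agent.W619.PQ Pool.Agent.W619.Y

namespace Pool.Agent.W412.PG

theorem sign_pow_even {R : Type*} [CommRing R] {n : ℕ} (τ : Equiv.Perm (Fin n)) {m : ℕ}
    (hm : Even m) : ((Equiv.Perm.sign τ : ℤ) : R) ^ m = 1 := by
  rcases Int.units_eq_one_or (Equiv.Perm.sign τ) with h | h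
  · rw [h]; simp
  · rw [h]
    simp only [Units.val_neg, Units.val_one, Int.cast_neg, Int.cast_one]
    exact hm.neg_one_pow

theorem der_sum {k L : Type*} [Field k] [Field L] [Algebra k L] {ι : Type*} (s : Finset ι)
    (E : ι → Derivation k L L) (f : L) : (∑ j ∈ s, E j) f = ∑ j ∈ s, E j f := by
  classical
  induction s using Finset.induction_on with
  | empty => simp
  | insert a s ha ih => rw [Finset.sum_insert ha, Finset.sum_insert ha, Derivation.add_apply, ih]

theorem main (h : S_EXT.{u, v}) : S_FORM.{u, v} := by
  intro k L _ _ _ _ n G _ σ x m B htr hx hm hB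
  have hfin : FiniteDimensional (fixedField G) L := fixed_finite G
  have halg : Algebra.IsAlgebraic (fixedField G) L := Algebra.IsAlgebraic.of_finite _ _
  have htrK : Algebra.trdeg k (fixedField G) = n := by
    have h1 := trdeg_add_eq k (fixedField G) (A := L)
    rw [trdeg_eq_zero (R := fixedField G) (A := L), add_zero] at h1
    rw [h1, htr]
  choose X hX1 hX2 hX3 using h k (fixedField G) L n htrK
  have hcomm : ∀ (D : Derivation k (fixedField G) (fixedField G)) (g : G) (z : L),
      (g : L ≃ₐ[k] L) (X D z) = X D ((g : L ≃ₐ[k] L) z) := by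
    intro D g z
    refine hX3 D (g : L ≃ₐ[k] L) (fun f => ?_) z
    exact (mem_fixedField_iff G (f : L)).1 f.2 g g.2
  have hinv : ∀ (D : Fin n → Derivation k (fixedField G) (fixedField G)),
      B * (Matrix.of fun i j => X (D j) (x i)).det ^ m ∈ fixedField G := by
    intro D
    rw [mem_fixedField_iff]
    intro g hg
    have hB' : g B = B := hB ⟨g, hg⟩
    have hdet : g (Matrix.of fun i j => X (D j) (x i)).det =
        ((Equiv.Perm.sign (σ ⟨g, hg⟩) : ℤ) : L) *
          (Matrix.of fun i j => X (D j) (x i)).det := by
      rw [← Matrix.det_permute, AlgEquiv.map_det]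
      congr 1
      ext i j
      have h1 := hcomm (D j) ⟨g, hg⟩ (x i)
      have h2 : g (x i) = x (σ ⟨g, hg⟩ i) := hx ⟨g, hg⟩ i
      show g (X (D j) (x i)) = X (D j) (x (σ ⟨g, hg⟩ i))
      rw [← h2]
      exact h1
    rw [map_mul, map_pow, hB', hdet, mul_pow, sign_pow_even _ hm, one_mul]
  refine ⟨fun D => ⟨_, hinv D⟩, ?_, ?_⟩
  · intro A D
    apply Subtype.ext
    have hext : ∀ i, X (∑ j, A i j • D j) = ∑ j, (A i j : L) • X (D j) := by
      intro i
      symm
      apply hX2
      intro f
      rw [der_sum, der_sum, map_sum]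
      refine Finset.sum_congr rfl fun j _ => ?_
      rw [Derivation.smul_apply, Derivation.smul_apply, smul_eq_mul, smul_eq_mul, map_mul, hX1]
      rfl
    have hdet : (Matrix.of fun i j => X (∑ l, A j l • D l) (x i)).det =
        (A.det : L) * (Matrix.of fun i j => X (D j) (x i)).det := by
      have h1 : (Matrix.of fun i j => X (∑ l, A j l • D l) (x i)) =
          (Matrix.of fun i j => X (D j) (x i)) *
            (A.map (algebraMap (fixedField G) L)).transpose := by
        ext i j
        rw [Matrix.mul_apply]
        show X (∑ l, A j l • D l) (x i) = _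
        rw [hext, der_sum]
        refine Finset.sum_congr rfl fun l _ => ?_
        rw [Derivation.smul_apply, smul_eq_mul, mul_comm]
        rfl
      rw [h1, Matrix.det_mul, Matrix.det_transpose, mul_comm]
      congr 1
      exact (RingHom.map_det (algebraMap (fixedField G) L) A).symm
    show B * (Matrix.of fun i j => X (∑ l, A j l • D l) (x i)).det ^ m =
      (A.det : L) ^ m * (B * (Matrix.of fun i j => X (D j) (x i)).det ^ m)
    rw [hdet]
    ring
  · intro D D' hD
    have h1 : ∀ j, D' j = X (D j) := fun j => hX2 _ _ (hD j)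
    show B * (Matrix.of fun i j => X (D j) (x i)).det ^ m = _
    simp only [h1]

end Pool.Agent.W412.PG
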